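import Pool.Agent.R946.Aloha.Defs

/-!
Expectations with respect to a `PMF` and the abstract drift criterion.
-/

namespace Pool.Agent.R946.Aloha

open MeasureTheory Filter Topology ENNReal

section Ex

variable {α β : Type*}

/-- expectation -/
noncomputable def ex (p : PMF α) (f : α → ℝ≥0∞) : ℝ≥0∞ := ∑' x, p x * f x

theorem ex_mono (p : PMF α) {f g : α → ℝ≥0∞} (h : ∀ x, f x ≤ g x) : ex p f ≤ ex p g :=
  ENNReal.tsum_le_tsum fun x => mul_le_mul_right (h x) _

theorem ex_pure (a : α) (f : α → ℝ≥0∞) : ex (PMF.pure a) f = f a := by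
  unfold ex
  rw [tsum_eq_single a]
  · simp
  · intro b hb
    simp [PMF.pure_apply, hb]

theorem ex_bind (p : PMF α) (g : α → PMF β) (f : β → ℝ≥0∞) :
    ex (p.bind g) f = ex p (fun a => ex (g a) f) := by
  unfold ex
  simp only [PMF.bind_apply]
  calc ∑' x, (∑' a, p a * g a x) * f x = ∑' x, ∑' a, p a * g a x * f x := by
        apply tsum_congr
        intro x
        rw [ENNReal.tsum_mul_right]
    _ = ∑' a, ∑' x, p a * g a x * f x := ENNReal.tsum_comm
    _ = ∑' a, p a * ∑' x, g a x * f x := by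
        apply tsum_congr
        intro a
        rw [← ENNReal.tsum_mul_left]
        apply tsum_congr
        intro x
        rw [mul_assoc]

theorem ex_map (p : PMF α) (g : α → β) (f : β → ℝ≥0∞) :
    ex (p.map g) f = ex p (fun a => f (g a)) := by
  unfold PMF.map
  rw [ex_bind]
  simp only [Function.comp, ex_pure]

theorem ex_add (p : PMF α) (f g : α → ℝ≥0∞) :
    ex p (fun x => f x + g x) = ex p f + ex p g := by
  unfold ex
  rw [← ENNReal.tsum_add]
  apply tsum_congr
  intro x
  rw [mul_add]

theorem ex_const_mul (p : PMF α) (c : ℝ≥0∞) (f : α → ℝ≥0∞) :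
    ex p (fun x => c * f x) = c * ex p f := by
  unfold ex
  rw [← ENNReal.tsum_mul_left]
  apply tsum_congr
  intro x
  ring

theorem ex_one (p : PMF α) : ex p (fun _ => 1) = 1 := by
  unfold ex
  simp [p.tsum_coe]

theorem ex_zero (p : PMF α) : ex p (fun _ => 0) = 0 := by
  unfold ex
  simp

theorem ex_coin {r : ℝ} (h0 : 0 ≤ r) (h1 : r ≤ 1) (f : Bool → ℝ≥0∞) :
    ex (coin r) f = ENNReal.ofReal r * f true + ENNReal.ofReal (1 - r) * f false := by
  unfold ex
  rw [tsum_fintype, Fintype.sum_bool]
  unfold coin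
  simp only [PMF.ofFintype_apply]
  simp only [if_true, Bool.false_eq_true, if_false]
  rw [min_eq_left h1, max_eq_right h0]

/-- arrivals: a function which decreases after the first arrival -/
theorem ex_arr (a : PMF ℕ) (f : ℕ → ℝ≥0∞) (hf : ∀ k, 1 ≤ k → f k ≤ f 1) :
    ex a f ≤ a 0 * f 0 + (1 - a 0) * f 1 := by
  have h0 : a 0 + ∑' k, a (k + 1) = 1 := by
    rw [← a.tsum_coe]
    exact (tsum_eq_zero_add' (f := fun k => a k) ENNReal.summable).symm
  have h0' : ∑' k, a (k + 1) = 1 - a 0 := by
    rw [← h0]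
    rw [ENNReal.add_sub_cancel_left (PMF.apply_ne_top a 0)]
  unfold ex
  rw [tsum_eq_zero_add' (f := fun k => a k * f k) ENNReal.summable]
  gcongr
  rw [← h0', ← ENNReal.tsum_mul_right]
  apply ENNReal.tsum_le_tsum
  intro k
  exact mul_le_mul_right (hf (k + 1) (by omega)) _

end Ex

/-- iterates of the chain, from the left -/
theorem law_succ' (a : PMF ℕ) (C : ℝ) (h ε : ℝ → ℝ) (x : ℕ × ℝ) (n : ℕ) :
    law a C h ε x (n + 1) = (step a C h ε x).bind (fun y => law a C h ε y n) := by
  induction n with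
  | zero =>
    show (PMF.pure x).bind (step a C h ε) = (step a C h ε x).bind (fun y => PMF.pure y)
    rw [PMF.pure_bind, PMF.bind_pure]
  | succ n ih =>
    show (law a C h ε x (n + 1)).bind (step a C h ε) = _
    rw [ih, PMF.bind_bind]
    rfl

theorem toMeasure_eq_ex (p : PMF (ℕ × ℝ)) (m : ℕ) :
    p.toMeasure {y : ℕ × ℝ | y.1 ≤ m} = ex p (fun y => if y.1 ≤ m then 1 else 0) := by
  have hm : MeasurableSet {y : ℕ × ℝ | y.1 ≤ m} := measurableSet_le measurable_fst measurable_const
  rw [PMF.toMeasure_apply _ hm]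
  unfold ex
  apply tsum_congr
  intro y
  by_cases h : y.1 ≤ m
  · rw [Set.indicator_of_mem (show y ∈ {y : ℕ × ℝ | y.1 ≤ m} from h)]
    simp [h]
  · rw [Set.indicator_of_notMem (show y ∉ {y : ℕ × ℝ | y.1 ≤ m} from h)]
    simp [h]

/-- Abstract criterion. `P` is invariant, `V ≤ 1`-type Lyapunov function. -/
theorem criterion (a : PMF ℕ) (C : ℝ) (h ε : ℝ → ℝ) (V : ℕ × ℝ → ℝ≥0∞) (G : ℕ × ℝ → Prop)
    (κ : ℝ≥0∞) (hκ : κ ≠ 0)
    (hS : ∀ x y, 1 ≤ x.2 → y ∈ (step a C h ε x).support → 1 ≤ y.2)
    (hV1 : ∀ x, 1 ≤ x.2 → ¬ G x → 1 ≤ V x)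
    (hV : ∀ x, 1 ≤ x.2 → G x → ex (step a C h ε x) V + κ * ((x.1 : ℝ≥0∞) ^ 2)⁻¹ ≤ V x)
    (x : ℕ × ℝ) (hx : 1 ≤ x.2) (hfin : V x ≠ ⊤) (m : ℕ) :
    ∃ u : ℕ → ℝ≥0∞, Tendsto u atTop (𝓝 0) ∧
      ∀ n, (law a C h ε x n).toMeasure {y : ℕ × ℝ | y.1 ≤ m} ≤ V x + u n := by
  classical
  -- the surviving part
  let U : ℕ → ℕ × ℝ → ℝ≥0∞ := fun n => Nat.rec (fun x => if G x ∧ x.1 ≤ m then 1 else 0)
    (fun _ u x => if G x then ex (step a C h ε x) u else 0) n
  have U0 : ∀ x, U 0 x = if G x ∧ x.1 ≤ m then 1 else 0 := fun x => rfl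
  have US : ∀ n x, U (n + 1) x = if G x then ex (step a C h ε x) (U n) else 0 := fun n x => rfl
  have exmono : ∀ (x : ℕ × ℝ), 1 ≤ x.2 → ∀ f g : ℕ × ℝ → ℝ≥0∞, (∀ y, 1 ≤ y.2 → f y ≤ g y) →
      ex (step a C h ε x) f ≤ ex (step a C h ε x) g := by
    intro x hx f g hfg
    unfold ex
    apply ENNReal.tsum_le_tsum
    intro y
    by_cases hy : y ∈ (step a C h ε x).support
    · exact mul_le_mul_right (hfg y (hS x y hx hy)) _
    · rw [PMF.mem_support_iff, not_not] at hy
      rw [hy]
      simp
  -- bound of the law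
  have key : ∀ n x, 1 ≤ x.2 →
      ex (law a C h ε x n) (fun y => if y.1 ≤ m then 1 else 0) ≤ V x + U n x := by
    intro n
    induction n with
    | zero =>
      intro x hx
      show ex (PMF.pure x) _ ≤ _
      rw [ex_pure, U0]
      by_cases hG : G x
      · by_cases hm : x.1 ≤ m
        · rw [if_pos hm, if_pos ⟨hG, hm⟩]
          exact le_add_self
        · rw [if_neg hm]
          exact zero_le
      · calc (if x.1 ≤ m then (1:ℝ≥0∞) else 0) ≤ 1 := by split_ifs <;> simp
          _ ≤ V x := hV1 x hx hG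
          _ ≤ _ := le_self_add
    | succ n ih =>
      intro x hx
      rw [law_succ', ex_bind, US]
      by_cases hG : G x
      · rw [if_pos hG]
        calc ex (step a C h ε x) (fun y => ex (law a C h ε y n) fun y => if y.1 ≤ m then 1 else 0)
            ≤ ex (step a C h ε x) (fun y => V y + U n y) := exmono x hx _ _ ih
          _ = ex (step a C h ε x) V + ex (step a C h ε x) (U n) := ex_add _ _ _
          _ ≤ V x + _ := by
            gcongr
            exact le_trans le_self_add (hV x hx hG)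
      · calc _ ≤ ex (step a C h ε x) (fun _ => 1) := by
              apply ex_mono
              intro y
              calc ex (law a C h ε y n) (fun y => if y.1 ≤ m then 1 else 0)
                  ≤ ex (law a C h ε y n) (fun _ => 1) := by
                    apply ex_mono
                    intro z
                    split_ifs <;> simp
                _ = 1 := ex_one _
          _ = 1 := ex_one _
          _ ≤ V x := hV1 x hx hG
          _ ≤ _ := le_self_add
  -- summability
  have sumU : ∀ k x, 1 ≤ x.2 → κ * (((m + 1 : ℕ) : ℝ≥0∞) ^ 2)⁻¹ * ∑ n ∈ Finset.range k, U n x ≤ V x := by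
    intro k
    induction k with
    | zero =>
      intro x hx
      simp
    | succ k ih =>
      intro x hx
      by_cases hG : G x
      · rw [Finset.sum_range_succ']
        have e1 : ∑ n ∈ Finset.range k, U (n + 1) x =
            ex (step a C h ε x) (fun y => ∑ n ∈ Finset.range k, U n y) := by
          clear ih
          induction k with
          | zero => simp [ex_zero]
          | succ k ihk =>
            rw [Finset.sum_range_succ, ihk]
            have : (fun y => ∑ n ∈ Finset.range (k + 1), U n y) =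
                fun y => (∑ n ∈ Finset.range k, U n y) + U k y := by
              funext y
              rw [Finset.sum_range_succ]
            rw [this, ex_add, US, if_pos hG]
        rw [e1, mul_add, ← ex_const_mul]
        calc ex (step a C h ε x)
              (fun y => κ * (((m + 1 : ℕ) : ℝ≥0∞) ^ 2)⁻¹ * ∑ n ∈ Finset.range k, U n y) +
              κ * (((m + 1 : ℕ) : ℝ≥0∞) ^ 2)⁻¹ * U 0 x
            ≤ ex (step a C h ε x) V + κ * ((x.1 : ℝ≥0∞) ^ 2)⁻¹ := by
              gcongr ?_ + ?_
              · exact exmono x hx _ _ ih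
              · rw [U0]
                split_ifs with hc
                · rw [mul_one]
                  gcongr
                  exact_mod_cast hc.2.trans (Nat.le_succ m)
                · simp
          _ ≤ V x := hV x hx hG
      · have e0 : ∀ n, U n x = 0 := by
          intro n
          cases n with
          | zero => rw [U0, if_neg (fun hc => hG hc.1)]
          | succ n => rw [US, if_neg hG]
        simp [e0]
  refine ⟨fun n => U n x, ?_, ?_⟩
  · have hsum : ∑' n, U n x ≠ ⊤ := by
      have hle : κ * (((m + 1 : ℕ) : ℝ≥0∞) ^ 2)⁻¹ * ∑' n, U n x ≤ V x := by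
        rw [ENNReal.tsum_eq_iSup_nat, ENNReal.mul_iSup]
        exact iSup_le fun k => sumU k x hx
      intro htop
      rw [htop] at hle
      have hne : κ * (((m + 1 : ℕ) : ℝ≥0∞) ^ 2)⁻¹ ≠ 0 := by
        apply mul_ne_zero hκ
        rw [ENNReal.inv_ne_zero]
        exact ENNReal.pow_ne_top (ENNReal.natCast_ne_top _)
      rw [ENNReal.mul_top hne] at hle
      exact hfin (top_le_iff.1 hle)
    exact ENNReal.tendsto_atTop_zero_of_tsum_ne_top hsum
  · intro n
    rw [toMeasure_eq_ex]
    exact key n x hx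

end Pool.Agent.R946.Aloha
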