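import Pool.Agent.R946.Aloha.Defs

/-!
The real inequalities.
-/

namespace Pool.Agent.R946.Aloha

open Filter Topology Real

theorem pow_sub_pow_bd {x y : ℝ} (hy : 0 ≤ y) (hxy : y ≤ x) (n : ℕ) :
    x ^ (n + 1) - y ^ (n + 1) ≤ (n + 1) * (x - y) * x ^ n := by
  have hx : 0 ≤ x := hy.trans hxy
  induction n with
  | zero => simp
  | succ n ih =>
    have h1 : y ^ (n + 1) ≤ x ^ (n + 1) := pow_le_pow_left₀ hy hxy _
    calc x ^ (n + 1 + 1) - y ^ (n + 1 + 1)
        = x * (x ^ (n + 1) - y ^ (n + 1)) + (x - y) * y ^ (n + 1) := by ring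
      _ ≤ x * ((n + 1) * (x - y) * x ^ n) + (x - y) * x ^ (n + 1) := by
          gcongr
      _ = _ := by push_cast; ring

theorem one_nonneg' {N : ℕ} {p : ℝ} (h0 : 0 ≤ p) (h1 : p ≤ 1) : 0 ≤ one N p := by
  unfold one
  have : 0 ≤ 1 - p := by linarith
  positivity

theorem one_le_mul {N : ℕ} {p : ℝ} (h0 : 0 ≤ p) (h1 : p ≤ 1) : one N p ≤ N * p := by
  unfold one
  have h2 : (1 - p) ^ (N - 1) ≤ 1 := pow_le_one₀ (by linarith) (by linarith)
  have h3 : 0 ≤ (N : ℝ) * p := by positivity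
  nlinarith

theorem one_le_one {N : ℕ} {p : ℝ} (h0 : 0 ≤ p) (h1 : p ≤ 1) : one N p ≤ 1 := by
  rcases Nat.eq_zero_or_pos N with rfl | hN
  · simp [one]
  have h := add_pow p (1 - p) N
  have h2 : (0:ℝ) ≤ 1 - p := by linarith
  rw [add_sub_cancel, one_pow] at h
  rw [h]
  have h3 := Finset.single_le_sum (f := fun m => p ^ m * (1 - p) ^ (N - m) * (N.choose m : ℝ))
    (s := Finset.range (N + 1)) (fun i _ => by positivity) (Finset.mem_range.2 (by omega : 1 < N + 1))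
  refine le_trans (le_of_eq ?_) h3
  unfold one
  simp only [pow_one, Nat.choose_one_right]
  ring

theorem pow_le_exp {p : ℝ} (h1 : p ≤ 1) (n : ℕ) : (1 - p) ^ n ≤ exp (-(p * n)) := by
  have h2 : 1 - p ≤ exp (-p) := by
    have := add_one_le_exp (-p)
    linarith
  calc (1 - p) ^ n ≤ (exp (-p)) ^ n := pow_le_pow_left₀ (by linarith) h2 n
    _ = exp (-(p * n)) := by rw [← exp_nat_mul]; congr 1; ring

/-- success probability with `p = 1 / s` -/
theorem one_bd {N : ℕ} (hN : 2 ≤ N) {s : ℝ} (hs : 1 ≤ s) :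
    one N (1 / s) ≤ 3 * (N / s) * exp (-(N / s)) := by
  have hs0 : 0 < s := by linarith
  have hp : 1 / s ≤ 1 := by rw [div_le_one hs0]; exact hs
  have h1 := pow_le_exp hp (N - 1)
  have hc : ((N - 1 : ℕ) : ℝ) = N - 1 := by
    rw [Nat.cast_sub (by omega)]; simp
  have h2 : exp (-(1 / s * ((N - 1 : ℕ) : ℝ))) ≤ 3 * exp (-(N / s)) := by
    rw [hc]
    have : -(1 / s * ((N : ℝ) - 1)) = 1 / s + -(N / s) := by field_simp; ring
    rw [this, exp_add]
    have h3 : exp (1 / s) ≤ 3 := by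
      calc exp (1 / s) ≤ exp 1 := exp_le_exp.2 hp
        _ ≤ 3 := by
          have := exp_one_lt_d9
          linarith
    have := exp_pos (-(N / s))
    nlinarith
  unfold one
  calc (N : ℝ) * (1 / s) * (1 - 1 / s) ^ (N - 1) ≤ (N * (1 / s)) * (3 * exp (-(N / s))) := by
        apply mul_le_mul_of_nonneg_left (h1.trans h2)
        positivity
    _ = _ := by ring

/-- difference of the success probabilities -/
theorem diff_bd {N : ℕ} (hN : 2 ≤ N) {s e : ℝ} (hs : 1 ≤ s) (he : 0 < e) (he2 : e ≤ 1 / 2) :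
    one N ((1 - e) / s) - one N (1 / s) ≤ 3 * e * ((N / s) ^ 2 * exp (-(N / s / 2))) := by
  have hs0 : 0 < s := by linarith
  obtain ⟨M, rfl⟩ : ∃ M, N = M + 2 := ⟨N - 2, by omega⟩
  set p0 : ℝ := (1 - e) / s with hp0
  set p1 : ℝ := 1 / s with hp1
  have hp01 : p1 - p0 = e / s := by rw [hp0, hp1]; ring
  have hes : 0 < e / s := by positivity
  have h1 : p1 ≤ 1 := by rw [hp1, div_le_one hs0]; exact hs
  have h1' : 0 < p1 := by rw [hp1]; positivity
  have h0 : 0 ≤ p0 := by rw [hp0]; apply div_nonneg <;> linarith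
  have hb := pow_sub_pow_bd (x := 1 - p0) (y := 1 - p1) (by linarith) (by linarith) M
  have hM : M + 2 - 1 = M + 1 := by omega
  have e1 : one (M + 2) p0 - one (M + 2) p1 ≤
      ((M : ℝ) + 2) * p1 * ((1 - p0) ^ (M + 1) - (1 - p1) ^ (M + 1)) := by
    unfold one
    rw [hM]
    push_cast
    have h2 : 0 ≤ (1 - p0) ^ (M + 1) := pow_nonneg (by linarith) _
    have h3 : ((M : ℝ) + 2) * p0 * (1 - p0) ^ (M + 1) ≤ ((M : ℝ) + 2) * p1 * (1 - p0) ^ (M + 1) := by
      gcongr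
      linarith
    linarith
  have e2 : (1 - p0) ^ M ≤ 3 * exp (-((M + 2 : ℕ) / s / 2)) := by
    have h2 := pow_le_exp (show p0 ≤ 1 by linarith) M
    have h3 : -(p0 * M) ≤ 1 / s + -((M + 2 : ℕ) / s / 2) := by
      have h4 : p0 ≥ 1 / s / 2 := by
        rw [hp0, ge_iff_le, div_div, div_le_div_iff₀ (by positivity) hs0]
        nlinarith
      have h5 : (0:ℝ) ≤ M := Nat.cast_nonneg M
      have h6 : 1 / s / 2 * M ≤ p0 * M := mul_le_mul_of_nonneg_right h4 h5
      have h7 : 1 / s + -(((M + 2 : ℕ) : ℝ) / s / 2) = -(1 / s / 2 * M) := by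
        push_cast
        field_simp
        ring
      rw [h7]
      linarith
    calc (1 - p0) ^ M ≤ exp (-(p0 * M)) := h2
      _ ≤ exp (1 / s + -((M + 2 : ℕ) / s / 2)) := exp_le_exp.2 h3
      _ = exp (1 / s) * exp (-((M + 2 : ℕ) / s / 2)) := exp_add _ _
      _ ≤ 3 * exp (-((M + 2 : ℕ) / s / 2)) := by
          gcongr
          calc exp (1 / s) ≤ exp 1 := exp_le_exp.2 (by rw [div_le_one hs0]; exact hs)
            _ ≤ 3 := by
              have := exp_one_lt_d9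
              linarith
  calc one (M + 2) p0 - one (M + 2) p1
      ≤ ((M : ℝ) + 2) * p1 * ((1 - p0) ^ (M + 1) - (1 - p1) ^ (M + 1)) := e1
    _ ≤ ((M : ℝ) + 2) * p1 * ((M + 1) * ((1 - p0) - (1 - p1)) * (1 - p0) ^ M) := by
        gcongr
    _ = ((M : ℝ) + 2) * p1 * ((M + 1) * (e / s)) * (1 - p0) ^ M := by
        rw [show (1 - p0) - (1 - p1) = e / s by rw [← hp01]; ring]
        ring
    _ ≤ ((M : ℝ) + 2) * p1 * ((M + 2) * (e / s)) * (3 * exp (-((M + 2 : ℕ) / s / 2))) := by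
        have h10 : (0:ℝ) ≤ (1 - p0) ^ M := pow_nonneg (by linarith) _
        have h11 : ((M : ℝ) + 1) * (e / s) ≤ (M + 2) * (e / s) := by nlinarith
        have h12 : (0:ℝ) ≤ ((M : ℝ) + 2) * p1 := by positivity
        have h13 : (0:ℝ) ≤ ((M : ℝ) + 1) * (e / s) := by positivity
        apply mul_le_mul _ e2 h10 (by positivity)
        exact mul_le_mul_of_nonneg_left h11 h12
    _ = _ := by
        rw [hp1]
        push_cast
        field_simp

/-- second difference of the square root -/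
theorem sqrt_second {Y h : ℝ} (hY : 0 < Y) (h0 : 0 ≤ h) (hh : h ≤ Y) :
    √(Y + h) + √(Y - h) - 2 * √Y ≤ -(h ^ 2 / (4 * (Y * √Y))) := by
  set u := √(Y + h)
  set v := √(Y - h)
  set s := √Y
  have hs : 0 < s := Real.sqrt_pos.2 hY
  have hu : u ^ 2 = Y + h := Real.sq_sqrt (by linarith)
  have hv : v ^ 2 = Y - h := Real.sq_sqrt (by linarith)
  have hs2 : s ^ 2 = Y := Real.sq_sqrt hY.le
  have hu0 : 0 ≤ u := Real.sqrt_nonneg _
  have hv0 : 0 ≤ v := Real.sqrt_nonneg _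
  set x := h ^ 2 / Y with hx
  have hxY : x * Y = h ^ 2 := by rw [hx]; field_simp
  have hx0 : 0 ≤ x := by positivity
  have hxle : x ≤ Y := by
    rw [hx, div_le_iff₀ hY]
    nlinarith
  have huv : u * v ≤ Y - x / 2 := by
    apply (sq_le_sq₀ (mul_nonneg hu0 hv0) (by linarith)).1
    calc (u * v) ^ 2 = u ^ 2 * v ^ 2 := by ring
      _ = Y ^ 2 - h ^ 2 := by rw [hu, hv]; ring
      _ = Y ^ 2 - x * Y := by rw [hxY]
      _ ≤ (Y - x / 2) ^ 2 := by nlinarith [sq_nonneg x]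
  have hsum : (u + v) ^ 2 ≤ 4 * Y - x := by nlinarith
  have hgoal : u + v ≤ 2 * s - x / (4 * s) := by
    have hnn : 0 ≤ 2 * s - x / (4 * s) := by
      have : x / (4 * s) ≤ s / 4 := by
        rw [div_le_iff₀ (by positivity)]
        nlinarith
      linarith
    apply (sq_le_sq₀ (add_nonneg hu0 hv0) hnn).1
    have e1 : (2 * s - x / (4 * s)) ^ 2 = 4 * s ^ 2 - x + (x / (4 * s)) ^ 2 := by
      field_simp
      ring
    rw [e1, hs2]
    nlinarith [sq_nonneg (x / (4 * s))]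
  have e2 : h ^ 2 / (4 * (Y * s)) = x / (4 * s) := by
    rw [hx]; field_simp
  rw [e2]
  linarith

theorem sqrt_first {Y h : ℝ} (hY : 0 < Y) (h0 : 0 ≤ h) :
    √(Y + h) - √Y ≤ h / (2 * √Y) := by
  have hs : 0 < √Y := Real.sqrt_pos.2 hY
  have h1 : √(Y + h) ≤ √Y + h / (2 * √Y) := by
    apply Real.sqrt_le_iff.2
    refine ⟨by positivity, ?_⟩
    have h2 : (√Y) ^ 2 = Y := Real.sq_sqrt hY.le
    have e : (√Y + h / (2 * √Y)) ^ 2 = (√Y) ^ 2 + h + (h / (2 * √Y)) ^ 2 := by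
      field_simp
      ring
    rw [e, h2]
    nlinarith [sq_nonneg (h / (2 * √Y))]
  linarith

end Pool.Agent.R946.Aloha
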