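import Pool.Agent.R946.Aloha.B

/-!
The drift inequality.
-/

namespace Pool.Agent.R946.Aloha

open Filter Topology Real

/-- `h(x) = x ^ (3/4) - 1` -/
noncomputable def hf (x : ℝ) : ℝ := x ^ (3 / 4 : ℝ) - 1

/-- `ε(x) = x ^ (-1/3) / 2` -/
noncomputable def ef (x : ℝ) : ℝ := x ^ (-(1 / 3) : ℝ) / 2

/-- the Lyapunov function -/
noncomputable def w (L n s : ℝ) : ℝ := 1 / n + 256 * √(s + L) / n ^ 2

theorem root {s : ℝ} (hs : 1 ≤ s) : ∃ t : ℝ, 1 ≤ t ∧ t ^ 12 = s ∧ hf s = t ^ 9 - 1 ∧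
    ef s = 1 / (2 * t ^ 4) ∧ √s = t ^ 6 := by
  have hs0 : 0 ≤ s := by linarith
  refine ⟨s ^ (1 / 12 : ℝ), one_le_rpow hs (by norm_num), ?_, ?_, ?_, ?_⟩
  · rw [← rpow_natCast, ← rpow_mul hs0]; norm_num
  · unfold hf
    rw [← rpow_natCast, ← rpow_mul hs0]; norm_num
  · unfold ef
    rw [← rpow_natCast (s ^ (1 / 12 : ℝ)) 4, ← rpow_mul hs0, rpow_neg hs0]
    norm_num
    ring
  · rw [← rpow_natCast, ← rpow_mul hs0, sqrt_eq_rpow]; norm_num

theorem X_bd {z : ℝ} (hz : 0 < z) :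
    z ^ 2 * exp (-(z / 2)) ≤ 16 ∧ z ^ 2 * exp (-(z / 2)) ≤ 216 / z := by
  have hE := exp_pos (z / 2)
  have e0 : exp (-(z / 2)) = 1 / exp (z / 2) := by rw [exp_neg, one_div]
  have h4 : z / 4 ≤ exp (z / 4) := by
    have := add_one_le_exp (z / 4)
    linarith
  have h6 : z / 6 ≤ exp (z / 6) := by
    have := add_one_le_exp (z / 6)
    linarith
  have e4 : exp (z / 2) = exp (z / 4) ^ 2 := by rw [← exp_nat_mul]; congr 1; push_cast; ring
  have e6 : exp (z / 2) = exp (z / 6) ^ 3 := by rw [← exp_nat_mul]; congr 1; push_cast; ring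
  constructor
  · rw [e0, mul_one_div, div_le_iff₀ hE, e4]
    have := pow_le_pow_left₀ (by positivity) h4 2
    nlinarith
  · rw [e0, mul_one_div, div_le_div_iff₀ hE hz, e6]
    have := pow_le_pow_left₀ (by positivity) h6 3
    nlinarith

theorem X_bd' {z : ℝ} (hz : 1 ≤ z) : z * exp (-z) ≤ z ^ 2 * exp (-(z / 2)) := by
  have h1 : exp (-z) ≤ exp (-(z / 2)) := exp_le_exp.2 (by linarith)
  have h2 := exp_pos (-(z / 2))
  calc z * exp (-z) ≤ z * exp (-(z / 2)) := by gcongr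
    _ ≤ z ^ 2 * exp (-(z / 2)) := by
      gcongr
      nlinarith

/-- failure step -/
theorem F_bd {r C L n s : ℝ} (hr : 0 < r) (hr1 : r ≤ 1) (hC : 0 < C) (hL : 0 < L)
    (hL2 : 256 * C ≤ r / 4 * √L) (hn : 2 ≤ n) (hs : 1 ≤ s) :
    (1 - r) * w L n (s + C) + r * w L (n + 1) (s + C) ≤ w L n s - (r / 4) / n ^ 2 := by
  have hn0 : 0 < n := by linarith
  have hY : 0 < s + L := by linarith
  have hsL : 0 < √L := Real.sqrt_pos.2 hL
  have h1 := sqrt_first hY hC.le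
  have h2 : √L ≤ √(s + L) := Real.sqrt_le_sqrt (by linarith)
  have h3 : 256 * (√(s + L + C) - √(s + L)) ≤ r / 8 := by
    calc 256 * (√(s + L + C) - √(s + L)) ≤ 256 * (C / (2 * √(s + L))) := by linarith
      _ ≤ 256 * (C / (2 * √L)) := by gcongr
      _ = (256 * C) / (2 * √L) := by ring
      _ ≤ (r / 4 * √L) / (2 * √L) := by gcongr
      _ = r / 8 := by field_simp; ring
  have hsC : s + C + L = s + L + C := by ring
  have h4 : w L n (s + C) ≤ w L n s + (r / 8) / n ^ 2 := by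
    unfold w
    rw [hsC]
    have : 256 * √(s + L + C) / n ^ 2 = 256 * √(s + L) / n ^ 2 +
        256 * (√(s + L + C) - √(s + L)) / n ^ 2 := by ring
    rw [this]
    have : 256 * (√(s + L + C) - √(s + L)) / n ^ 2 ≤ (r / 8) / n ^ 2 := by gcongr
    linarith
  have h5 : w L (n + 1) (s + C) ≤ w L n (s + C) - 1 / (n * (n + 1)) := by
    unfold w
    have e1 : 1 / (n + 1) = 1 / n - 1 / (n * (n + 1)) := by field_simp; ring
    rw [e1]
    have : 256 * √(s + C + L) / (n + 1) ^ 2 ≤ 256 * √(s + C + L) / n ^ 2 := by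
      gcongr
      linarith
    linarith
  have h6 : (1 / 2) / n ^ 2 ≤ 1 / (n * (n + 1)) := by
    rw [div_le_div_iff₀ (by positivity) (by positivity)]
    nlinarith
  have h7 : r * w L (n + 1) (s + C) ≤ r * (w L n (s + C) - (1 / 2) / n ^ 2) := by
    apply mul_le_mul_of_nonneg_left _ hr.le
    linarith
  have h8 : r * ((1 / 2) / n ^ 2) = (r / 2) / n ^ 2 := by ring
  have h9 : (r / 2) / n ^ 2 = (r / 8) / n ^ 2 + (r / 4) / n ^ 2 + (r / 8) / n ^ 2 := by ring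
  have h10 : 0 ≤ (r / 8) / n ^ 2 := by positivity
  nlinarith

/-- success step -/
theorem G_bd {L n s : ℝ} (hn : 2 ≤ n) :
    w L (n - 1) s ≤ 1 / n + 2 / n ^ 2 + 256 * √(s + L) / n ^ 2 + 2048 * √(s + L) / n ^ 3 := by
  have hn0 : 0 < n := by linarith
  have hn1 : 0 < n - 1 := by linarith
  have hs := Real.sqrt_nonneg (s + L)
  unfold w
  have h1 : 1 / (n - 1) ≤ 1 / n + 2 / n ^ 2 := by
    rw [div_add_div _ _ hn0.ne' (by positivity), div_le_div_iff₀ hn1 (by positivity)]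
    nlinarith
  have h2 : 1 / (n - 1) ^ 2 ≤ 1 / n ^ 2 + 8 / n ^ 3 := by
    rw [div_add_div _ _ (by positivity) (by positivity), div_le_div_iff₀ (by positivity) (by positivity)]
    have e : (1 * n ^ 3 + n ^ 2 * 8) * (n - 1) ^ 2 - 1 * (n ^ 2 * n ^ 3) =
        n ^ 2 * (6 * n ^ 2 - 15 * n + 8) := by ring
    have h3 : 0 ≤ 6 * n ^ 2 - 15 * n + 8 := by nlinarith
    have := mul_nonneg (sq_nonneg n) h3
    linarith
  have h4 : 256 * √(s + L) / (n - 1) ^ 2 = (256 * √(s + L)) * (1 / (n - 1) ^ 2) := by ring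
  have h5 : (256 * √(s + L)) * (1 / (n - 1) ^ 2) ≤ (256 * √(s + L)) * (1 / n ^ 2 + 8 / n ^ 3) := by
    gcongr
  have h6 : (256 * √(s + L)) * (1 / n ^ 2 + 8 / n ^ 3) =
      256 * √(s + L) / n ^ 2 + 2048 * √(s + L) / n ^ 3 := by ring
  linarith

/-- the combination -/
theorem combine {r L n s h F q0 q1 : ℝ} (hr : 0 < r) (hr1 : r ≤ 1) (hn : 2 ≤ n)
    (hq0 : 0 ≤ q0) (hq01 : q0 ≤ 1) (hq1 : 0 ≤ q1) (hq11 : q1 ≤ 1)
    (hF : F ≤ w L n s - (r / 4) / n ^ 2)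
    (hZ : 9 / 4 * ((q0 + q1) / 2) + 256 * ((q1 / 2) * (√(s - h + L) - √(s + L)) +
      (q0 / 2) * (√(s + h + L) - √(s + L))) +
      2048 / n * ((q1 / 2) * √(s - h + L) + (q0 / 2) * √(s + h + L)) ≤ r / 8) :
    1 / 2 * (q1 * w L (n - 1) (s - h) + (1 - q1) * F) +
      1 / 2 * (q0 * w L (n - 1) (s + h) + (1 - q0) * F) + (r / 8) / n ^ 2 ≤ w L n s := by
  have hn0 : 0 < n := by linarith
  have hG1 := G_bd (L := L) (s := s - h) hn
  have hG0 := G_bd (L := L) (s := s + h) hn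
  set ym := √(s - h + L)
  set yp := √(s + h + L)
  have hw : w L n s = 1 / n + 256 * √(s + L) / n ^ 2 := rfl
  set y := √(s + L)
  set W := w L n s
  set G1 := w L (n - 1) (s - h)
  set G0 := w L (n - 1) (s + h)
  have a1 : q1 * G1 ≤ q1 * (1 / n + 2 / n ^ 2 + 256 * ym / n ^ 2 + 2048 * ym / n ^ 3) :=
    mul_le_mul_of_nonneg_left hG1 hq1
  have a0 : q0 * G0 ≤ q0 * (1 / n + 2 / n ^ 2 + 256 * yp / n ^ 2 + 2048 * yp / n ^ 3) :=
    mul_le_mul_of_nonneg_left hG0 hq0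
  have b1 : (1 - q1) * F ≤ (1 - q1) * (W - (r / 4) / n ^ 2) :=
    mul_le_mul_of_nonneg_left hF (by linarith)
  have b0 : (1 - q0) * F ≤ (1 - q0) * (W - (r / 4) / n ^ 2) :=
    mul_le_mul_of_nonneg_left hF (by linarith)
  have hZ' : (9 / 4 * ((q0 + q1) / 2) + 256 * ((q1 / 2) * (ym - y) +
      (q0 / 2) * (yp - y)) +
      2048 / n * ((q1 / 2) * ym + (q0 / 2) * yp)) / n ^ 2 ≤ (r / 8) / n ^ 2 := by gcongr
  have hqr : (q0 + q1) / 2 * r / 4 / n ^ 2 ≤ (q0 + q1) / 2 / 4 / n ^ 2 := by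
    gcongr
    nlinarith
  have e : 1 / 2 * (q1 * (1 / n + 2 / n ^ 2 + 256 * ym / n ^ 2 + 2048 * ym / n ^ 3) +
      (1 - q1) * (W - (r / 4) / n ^ 2)) +
      1 / 2 * (q0 * (1 / n + 2 / n ^ 2 + 256 * yp / n ^ 2 + 2048 * yp / n ^ 3) +
      (1 - q0) * (W - (r / 4) / n ^ 2)) + (r / 8) / n ^ 2 =
      W + (9 / 4 * ((q0 + q1) / 2) + 256 * ((q1 / 2) * (ym - y) +
      (q0 / 2) * (yp - y)) +
      2048 / n * ((q1 / 2) * ym + (q0 / 2) * yp)) / n ^ 2 - (r / 8) / n ^ 2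
      + ((q0 + q1) / 2 * r / 4 / n ^ 2 - (q0 + q1) / 2 / 4 / n ^ 2) := by
    rw [hw]
    field_simp
    ring
  linarith

end Pool.Agent.R946.Aloha
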