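import Pool.Agent.R946.Aloha.B2

/-!
The drift inequality, second part.
-/

namespace Pool.Agent.R946.Aloha

open Filter Topology Real

theorem aux1 {n A : ℝ} (hn : 0 < n) : 2048 / n * (A * √n) = 2048 * A / √n := by
  have h1 := Real.mul_self_sqrt hn.le
  have h2 : 0 < √n := Real.sqrt_pos.2 hn
  rw [div_mul_eq_mul_div, div_eq_div_iff hn.ne' h2.ne']
  linear_combination (2048 * A) * h1

/-- the last term -/
theorem term3_bd {r L s q0 q1 n yp ym h : ℝ} (hr : 0 < r) (hL : 0 < L)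
    (hn : 2 ≤ n) (hs0 : 0 < s) (h0 : 0 ≤ h) (hhs : h ≤ s)
    (hq0 : 0 ≤ q0) (hq01 : q0 ≤ 1) (hq1 : 0 ≤ q1) (hq11 : q1 ≤ 1)
    (hq0z : q0 ≤ n / s) (hq1z : q1 ≤ n / s)
    (hyp : yp = √(s + L + h)) (hym : ym ≤ yp)
    (hbig : (65536 * (2 + √L) / r) ^ 2 ≤ n) :
    2048 / n * ((q1 / 2) * ym + (q0 / 2) * yp) ≤ r / 32 := by
  have hn0 : 0 < n := by linarith
  set q : ℝ := (q0 + q1) / 2 with hq
  have hq0' : 0 ≤ q := by positivity
  have a5 : 0 ≤ √L := Real.sqrt_nonneg _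
  have h1 : (q1 / 2) * ym + (q0 / 2) * yp ≤ q * yp := by
    have : (q1 / 2) * ym ≤ (q1 / 2) * yp := mul_le_mul_of_nonneg_left hym (by linarith)
    calc _ ≤ (q1 / 2) * yp + (q0 / 2) * yp := by linarith
      _ = q * yp := by rw [hq]; ring
  have h2 : yp ≤ 2 * √s + √L := by
    rw [hyp]
    apply Real.sqrt_le_iff.2
    refine ⟨by positivity, ?_⟩
    have a1 : √s ^ 2 = s := Real.sq_sqrt hs0.le
    have a2 : √L ^ 2 = L := Real.sq_sqrt hL.le
    have a3 : 0 ≤ √s * √L := by positivity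
    have e : (2 * √s + √L) ^ 2 = 4 * √s ^ 2 + 4 * (√s * √L) + √L ^ 2 := by ring
    rw [e, a1, a2]
    linarith
  have a2 : q ≤ 1 := by rw [hq]; linarith
  have h3 : q * √s ≤ √n := by
    apply Real.le_sqrt_of_sq_le
    have a1 : √s ^ 2 = s := Real.sq_sqrt hs0.le
    have a3 : q ≤ n / s := by rw [hq]; linarith
    have a4 : q * s ≤ n := by rwa [le_div_iff₀ hs0] at a3
    calc (q * √s) ^ 2 = q * (q * s) := by rw [mul_pow, a1]; ring
      _ ≤ 1 * n := by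
        apply mul_le_mul a2 a4 (by positivity) (by norm_num)
      _ = n := one_mul n
  have h4 : q * yp ≤ 2 * √n + √L := by
    have b1 : q * yp ≤ q * (2 * √s + √L) := mul_le_mul_of_nonneg_left h2 hq0'
    have b2 : q * √L ≤ 1 * √L := mul_le_mul_of_nonneg_right a2 a5
    have b3 : q * (2 * √s + √L) = 2 * (q * √s) + q * √L := by ring
    linarith
  have h5 : 65536 * (2 + √L) / r ≤ √n := Real.le_sqrt_of_sq_le hbig
  have hsn1 : 1 ≤ √n := by
    rw [show (1:ℝ) = √1 by simp]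
    exact Real.sqrt_le_sqrt (by linarith)
  have h6 : 65536 * (2 + √L) ≤ r * √n := by
    rw [div_le_iff₀ hr] at h5
    linarith
  have h7 : 2 * √n + √L ≤ (2 + √L) * √n := by
    have : √L * 1 ≤ √L * √n := mul_le_mul_of_nonneg_left hsn1 a5
    linarith
  calc 2048 / n * ((q1 / 2) * ym + (q0 / 2) * yp) ≤ 2048 / n * ((2 + √L) * √n) :=
        mul_le_mul_of_nonneg_left ((h1.trans h4).trans h7) (by positivity)
    _ = 2048 * (2 + √L) / √n := aux1 hn0
    _ ≤ r / 32 := by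
        rw [div_le_div_iff₀ (by linarith) (by norm_num)]
        linarith

/-- large `z` -/
theorem main1 {r X z q1 Dt R : ℝ} (hr : 0 < r) (hr1 : r ≤ 1) (hz : 700000 / r ≤ z)
    (hXdef : X = z ^ 2 * exp (-(z / 2))) (hq1 : 0 ≤ q1)
    (hq1X : q1 ≤ 3 * (z * exp (-z))) (hDX : Dt ≤ 3 / 2 * X) (hR : 0 ≤ R) :
    9 / 4 * q1 + 66 * Dt - 32 * q1 * R ≤ r / 16 := by
  have hK : 0 < 700000 / r := by positivity
  have hz0 : 0 < z := by linarith
  have hz1 : 1 ≤ z := by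
    refine le_trans ?_ hz
    rw [le_div_iff₀ hr]
    linarith
  obtain ⟨X16, X216⟩ := X_bd hz0
  rw [← hXdef] at X16 X216
  have b1 : 216 / z ≤ 216 / (700000 / r) := div_le_div_of_nonneg_left (by norm_num) hK hz
  have b2 : 216 / (700000 / r) = 216 / 700000 * r := by field_simp
  have b3 : X ≤ 216 / 700000 * r := by linarith
  have b4 := X_bd' hz1
  rw [← hXdef] at b4
  have b6 : 0 ≤ 32 * q1 * R := by positivity
  have b7 : q1 ≤ 3 * X := by linarith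
  linarith

/-- small `z` -/
theorem main2 {r X t L q1 Dt h Y y : ℝ} (hr : 0 < r) (hr1 : r ≤ 1) (ht0 : 0 < t)
    (ht51 : 51000 / r ≤ t) (hLs : L ≤ t ^ 12) (hL : 0 < L) (hq1 : 0 ≤ q1)
    (X16 : X ≤ 16) (hDX : Dt ≤ 3 / 2 * X / t) (hh : h = t ^ 9 - 1) (hY : Y = t ^ 12 + L)
    (hy : y = √Y) :
    9 / 4 * q1 + 66 * Dt - 32 * q1 * (h ^ 2 / (Y * y)) ≤ r / 16 := by
  have ht2 : 2 ≤ t := by
    refine le_trans ?_ ht51
    rw [le_div_iff₀ hr]
    linarith
  have ht92 : 2 ≤ t ^ 9 := by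
    calc (2:ℝ) ≤ t := ht2
      _ = t ^ 1 := (pow_one t).symm
      _ ≤ t ^ 9 := pow_le_pow_right₀ (by linarith) (by norm_num)
  have hY0 : 0 < Y := by rw [hY]; positivity
  have hy0 : 0 < y := by rw [hy]; exact Real.sqrt_pos.2 hY0
  have hh2 : t ^ 9 / 2 ≤ h := by rw [hh]; linarith
  have hh3 : t ^ 18 / 4 ≤ h ^ 2 := by
    calc t ^ 18 / 4 = (t ^ 9 / 2) ^ 2 := by ring
      _ ≤ h ^ 2 := pow_le_pow_left₀ (by positivity) hh2 2
  have hY2 : Y ≤ 2 * t ^ 12 := by rw [hY]; linarith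
  have hy2 : y ≤ 3 / 2 * t ^ 6 := by
    rw [hy]
    apply Real.sqrt_le_iff.2
    refine ⟨by positivity, ?_⟩
    have e : (3 / 2 * t ^ 6) ^ 2 = 9 / 4 * t ^ 12 := by ring
    have : 0 ≤ t ^ 12 := by positivity
    rw [e]
    linarith
  have hYy : Y * y ≤ 3 * t ^ 18 := by
    calc Y * y ≤ (2 * t ^ 12) * (3 / 2 * t ^ 6) :=
          mul_le_mul hY2 hy2 hy0.le (by positivity)
      _ = 3 * t ^ 18 := by ring
  have h12 : 1 / 12 ≤ h ^ 2 / (Y * y) := by
    rw [le_div_iff₀ (by positivity)]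
    linarith
  have c2 : q1 * (1 / 12) ≤ q1 * (h ^ 2 / (Y * y)) := mul_le_mul_of_nonneg_left h12 hq1
  have c2' : 32 * q1 * (h ^ 2 / (Y * y)) = 32 * (q1 * (h ^ 2 / (Y * y))) := by ring
  have c3 : Dt ≤ 24 / t := by
    refine hDX.trans ?_
    apply div_le_div_of_nonneg_right _ ht0.le
    linarith
  have c4 : 24 / t ≤ 24 / (51000 / r) := div_le_div_of_nonneg_left (by norm_num) (by positivity) ht51
  have c5 : 24 / (51000 / r) = 24 / 51000 * r := by field_simp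
  rw [c2']
  linarith

/-- the first order terms -/
theorem term1_bd {q0 q1 t h Y y yp ym D : ℝ} (hY0 : 0 < Y) (hy0 : 0 < y) (ht0 : 0 < t)
    (hq1 : 0 ≤ q1) (hD0 : 0 ≤ D) (hDle : q0 - q1 ≤ D) (hht : h ≤ t ^ 9) (hyt : t ^ 6 ≤ y)
    (hsec : yp + ym - 2 * y ≤ -(h ^ 2 / (4 * (Y * y)))) (hfir : yp - y ≤ h / (2 * y))
    (hyyp : y ≤ yp) :
    256 * ((q1 / 2) * (ym - y) + (q0 / 2) * (yp - y)) ≤
      64 * (D * t ^ 3) - 32 * q1 * (h ^ 2 / (Y * y)) := by
  have hfir2 : yp - y ≤ t ^ 3 / 2 := by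
    calc yp - y ≤ h / (2 * y) := hfir
      _ ≤ t ^ 9 / (2 * t ^ 6) := by
          apply div_le_div₀ (by positivity) hht (by positivity)
          linarith
      _ = t ^ 3 / 2 := by field_simp
  have e1 : (q1 / 2) * (ym - y) + (q0 / 2) * (yp - y) =
      (q1 / 2) * (yp + ym - 2 * y) + ((q0 - q1) / 2) * (yp - y) := by ring
  have e2 : (q1 / 2) * (yp + ym - 2 * y) ≤ (q1 / 2) * (-(h ^ 2 / (4 * (Y * y)))) :=
    mul_le_mul_of_nonneg_left hsec (by linarith)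
  have e3 : ((q0 - q1) / 2) * (yp - y) ≤ (D / 2) * (t ^ 3 / 2) := by
    apply mul_le_mul _ hfir2 (by linarith) (by linarith)
    linarith
  have e4 : (q1 / 2) * (-(h ^ 2 / (4 * (Y * y)))) = -(1 / 8 * (q1 * (h ^ 2 / (Y * y)))) := by
    field_simp
    ring
  rw [e4] at e2
  rw [e1]
  have e5 : 32 * q1 * (h ^ 2 / (Y * y)) = 32 * (q1 * (h ^ 2 / (Y * y))) := by ring
  rw [e5]
  have e6 : (D / 2) * (t ^ 3 / 2) = 1 / 4 * (D * t ^ 3) := by ring
  rw [e6] at e3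
  linarith

/-- the main numerical estimate -/
theorem Z_bd {r L t s q0 q1 X z n D : ℝ} (hr : 0 < r) (hr1 : r ≤ 1) (hL : 0 < L)
    (hn : 2 ≤ n) (ht : 1 ≤ t) (hts : t ^ 12 = s) (hz : z = n / s)
    (hq0 : 0 ≤ q0) (hq01 : q0 ≤ 1) (hq1 : 0 ≤ q1) (hq11 : q1 ≤ 1)
    (hq0z : q0 ≤ z) (hq1z : q1 ≤ z)
    (hXdef : X = z ^ 2 * exp (-(z / 2)))
    (hq1X : q1 ≤ 3 * (z * exp (-z)))
    (hD : D = max (q0 - q1) 0)
    (hDX : q0 - q1 ≤ 3 * (1 / (2 * t ^ 4)) * X)
    (hbig : (65536 * (2 + √L) / r) ^ 2 ≤ n)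
    (hbig2 : (700000 / r) * ((51000 / r) ^ 12 + L) ≤ n) :
    9 / 4 * ((q0 + q1) / 2) + 256 * ((q1 / 2) * (√(s - (t ^ 9 - 1) + L) - √(s + L)) +
      (q0 / 2) * (√(s + (t ^ 9 - 1) + L) - √(s + L))) +
      2048 / n * ((q1 / 2) * √(s - (t ^ 9 - 1) + L) + (q0 / 2) * √(s + (t ^ 9 - 1) + L)) ≤
      r / 8 := by
  have ht0 : 0 < t := by linarith
  have hn0 : 0 < n := by linarith
  have hs1 : 1 ≤ s := by rw [← hts]; exact one_le_pow₀ ht
  have hs0 : 0 < s := by linarith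
  have hz0 : 0 < z := by rw [hz]; positivity
  have hX0 : 0 ≤ X := by rw [hXdef]; positivity
  have X16 := (X_bd hz0).1
  rw [← hXdef] at X16
  have ht9 : 1 ≤ t ^ 9 := one_le_pow₀ ht
  have h0 : 0 ≤ t ^ 9 - 1 := by linarith
  have ht912 : t ^ 9 ≤ t ^ 12 := pow_le_pow_right₀ ht (by norm_num)
  have hhs : t ^ 9 - 1 ≤ s := by rw [← hts]; linarith
  have hY0 : 0 < s + L := by positivity
  have eY1 : s - (t ^ 9 - 1) + L = s + L - (t ^ 9 - 1) := by ring
  have eY2 : s + (t ^ 9 - 1) + L = s + L + (t ^ 9 - 1) := by ring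
  rw [eY1, eY2]
  have hsec := sqrt_second hY0 h0 (by linarith : t ^ 9 - 1 ≤ s + L)
  have hfir := sqrt_first hY0 h0
  have hy0 : 0 < √(s + L) := Real.sqrt_pos.2 hY0
  have hym_le : √(s + L - (t ^ 9 - 1)) ≤ √(s + L + (t ^ 9 - 1)) := Real.sqrt_le_sqrt (by linarith)
  have hyyp : √(s + L) ≤ √(s + L + (t ^ 9 - 1)) := Real.sqrt_le_sqrt (by linarith)
  have hss : √s = t ^ 6 := by
    rw [← hts, show t ^ 12 = (t ^ 6) ^ 2 by ring, Real.sqrt_sq (by positivity)]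
  have hyt : t ^ 6 ≤ √(s + L) := by
    rw [← hss]
    exact Real.sqrt_le_sqrt (by linarith)
  have hD0 : 0 ≤ D := by rw [hD]; exact le_max_right _ _
  have hDle : q0 - q1 ≤ D := by rw [hD]; exact le_max_left _ _
  have ht3 : 1 ≤ t ^ 3 := one_le_pow₀ ht
  have hDX' : D * t ^ 3 ≤ 3 / 2 * X / t := by
    have h1 : D ≤ 3 * (1 / (2 * t ^ 4)) * X := by
      rw [hD]
      apply max_le hDX
      positivity
    calc D * t ^ 3 ≤ (3 * (1 / (2 * t ^ 4)) * X) * t ^ 3 :=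
          mul_le_mul_of_nonneg_right h1 (by positivity)
      _ = 3 / 2 * X / t := by field_simp
  have term1 := term1_bd hY0 hy0 ht0 hq1 hD0 hDle (by linarith : t ^ 9 - 1 ≤ t ^ 9) hyt hsec hfir
    hyyp
  have term0 : 9 / 4 * ((q0 + q1) / 2) ≤ 9 / 4 * q1 + 2 * (D * t ^ 3) := by
    have : D * 1 ≤ D * t ^ 3 := mul_le_mul_of_nonneg_left ht3 hD0
    linarith
  have term3 := term3_bd (yp := √(s + L + (t ^ 9 - 1))) (ym := √(s + L - (t ^ 9 - 1)))
    hr hL hn hs0 h0 hhs hq0 hq01 hq1 hq11 (hz ▸ hq0z) (hz ▸ hq1z) rfl hym_le hbig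
  have main : 9 / 4 * q1 + 66 * (D * t ^ 3) -
      32 * q1 * ((t ^ 9 - 1) ^ 2 / ((s + L) * √(s + L))) ≤ r / 16 := by
    rcases le_total (700000 / r) z with hzK | hzK
    · exact main1 hr hr1 hzK hXdef hq1 hq1X (hDX'.trans (div_le_self (by positivity) ht))
        (by positivity)
    · have hsn : n / (700000 / r) ≤ s := by
        have hK : 0 < 700000 / r := by positivity
        rw [div_le_iff₀ hK]
        rw [hz, div_le_iff₀ hs0] at hzK
        linarith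
      have hs2 : (51000 / r) ^ 12 + L ≤ s := by
        refine le_trans ?_ hsn
        rw [le_div_iff₀ (by positivity)]
        linarith
      have ht51 : 51000 / r ≤ t := by
        have : (51000 / r) ^ 12 ≤ t ^ 12 := by rw [hts]; linarith
        exact le_of_pow_le_pow_left₀ (by norm_num) ht0.le this
      have hLs : L ≤ t ^ 12 := by
        have : 0 ≤ (51000 / r) ^ 12 := by positivity
        rw [hts]
        linarith
      exact main2 hr hr1 ht0 ht51 hLs hL hq1 X16 hDX' rfl (by rw [hts]) rfl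
  linarith

theorem drift {r C : ℝ} (hr : 0 < r) (hr1 : r ≤ 1) (hC : 0 < C) :
    ∃ L : ℝ, 0 < L ∧ ∃ N₀ : ℕ, 2 ≤ N₀ ∧ ∀ N : ℕ, N₀ ≤ N → ∀ s : ℝ, 1 ≤ s →
      1 / 2 * (one N (1 / s) * w L (N - 1) (s - hf s) + (1 - one N (1 / s)) *
          ((1 - r) * w L N (s + C) + r * w L (N + 1) (s + C))) +
        1 / 2 * (one N ((1 - ef s) / s) * w L (N - 1) (s + hf s) + (1 - one N ((1 - ef s) / s)) *
          ((1 - r) * w L N (s + C) + r * w L (N + 1) (s + C))) + (r / 8) / N ^ 2 ≤ w L N s := by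
  set L : ℝ := (1024 * C / r) ^ 2 with hL
  have hL0 : 0 < L := by positivity
  have hsL : √L = 1024 * C / r := by rw [hL, Real.sqrt_sq (by positivity)]
  have hL2 : 256 * C ≤ r / 4 * √L := by rw [hsL]; field_simp; norm_num
  obtain ⟨N1, hN1⟩ := exists_nat_ge ((65536 * (2 + √L) / r) ^ 2 +
    (700000 / r) * ((51000 / r) ^ 12 + L))
  refine ⟨L, hL0, max 2 N1, le_max_left _ _, ?_⟩
  intro N hN s hs
  have hN2 : 2 ≤ N := le_trans (le_max_left _ _) hN
  have hNr : (2:ℝ) ≤ N := by exact_mod_cast hN2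
  have hNN1 : (N1 : ℝ) ≤ N := by exact_mod_cast le_trans (le_max_right _ _) hN
  have p1 : 0 ≤ (65536 * (2 + √L) / r) ^ 2 := by positivity
  have p2 : 0 ≤ (700000 / r) * ((51000 / r) ^ 12 + L) := by positivity
  have hs0 : 0 < s := by linarith
  obtain ⟨t, ht, hts, hht, het, hst⟩ := root hs
  have ht0 : 0 < t := by linarith
  have he0 : 0 < ef s := by rw [het]; positivity
  have he1 : ef s ≤ 1 / 2 := by
    rw [het, div_le_div_iff₀ (by positivity) (by norm_num)]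
    have : 1 ≤ t ^ 4 := one_le_pow₀ ht
    linarith
  have hp1 : 1 / s ≤ 1 := by rw [div_le_one hs0]; exact hs
  have hp1' : 0 ≤ 1 / s := by positivity
  have hp0 : 0 ≤ (1 - ef s) / s := by apply div_nonneg <;> linarith
  have hp01 : (1 - ef s) / s ≤ 1 / s := by gcongr; linarith
  have hF := F_bd hr hr1 hC hL0 hL2 hNr hs
  apply combine hr hr1 hNr (one_nonneg' hp0 (hp01.trans hp1)) (one_le_one hp0 (hp01.trans hp1))
    (one_nonneg' hp1' hp1) (one_le_one hp1' hp1) hF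
  rw [hht]
  apply Z_bd hr hr1 hL0 hNr ht hts rfl (one_nonneg' hp0 (hp01.trans hp1))
    (one_le_one hp0 (hp01.trans hp1)) (one_nonneg' hp1' hp1) (one_le_one hp1' hp1) ?_ ?_ rfl ?_ rfl
    ?_ (by linarith) (by linarith)
  · refine (one_le_mul hp0 (hp01.trans hp1)).trans ?_
    calc (N : ℝ) * ((1 - ef s) / s) ≤ N * (1 / s) := by gcongr
      _ = N / s := by ring
  · refine (one_le_mul hp1' hp1).trans ?_
    apply le_of_eq
    ring
  · refine (one_bd hN2 hs).trans ?_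
    apply le_of_eq
    ring
  · have := diff_bd hN2 hs he0 he1
    rwa [het] at this ⊢

end Pool.Agent.R946.Aloha
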