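import Pool.Agent.R946.Aloha.A
import Pool.Agent.R946.Aloha.B3

/-!
Assembly for the protocol `A₃`.
-/

namespace Pool.Agent.R946.Aloha

open MeasureTheory Filter Topology ENNReal

theorem w_nonneg {L n s : ℝ} (hn : 0 < n) : 0 ≤ w L n s := by
  unfold w
  positivity

theorem w_anti {L n n' s : ℝ} (hn : 0 < n) (h : n ≤ n') : w L n' s ≤ w L n s := by
  unfold w
  have h1 : 1 / n' ≤ 1 / n := one_div_le_one_div_of_le hn h
  have h2 : 256 * √(s + L) / n' ^ 2 ≤ 256 * √(s + L) / n ^ 2 := by gcongr
  linarith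

theorem inH_hf : InH hf := by
  have hrpow : Tendsto (fun x : ℝ => x ^ (3 / 4 : ℝ)) atTop atTop := tendsto_rpow_atTop (by norm_num)
  have hrat : Tendsto (fun x : ℝ => x ^ (-(1 / 4) : ℝ)) atTop (𝓝 0) :=
    tendsto_rpow_neg_atTop (by norm_num)
  have hinv : Tendsto (fun x : ℝ => x⁻¹) atTop (𝓝 0) := tendsto_inv_atTop_zero
  have hmono : MonotoneOn hf (Set.Ici 1) := by
    intro x hx y hy hxy
    have hx1 : (1:ℝ) ≤ x := hx
    unfold hf
    have := Real.rpow_le_rpow (by linarith) hxy (by norm_num : (0:ℝ) ≤ 3 / 4)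
    linarith
  have h1 : hf 1 = 0 := by unfold hf; simp
  have hdiv : Tendsto (fun x : ℝ => hf x / x) atTop (𝓝 0) := by
    have h2 : Tendsto (fun x : ℝ => x ^ (-(1 / 4) : ℝ) - x⁻¹) atTop (𝓝 (0 - 0)) := hrat.sub hinv
    rw [sub_zero] at h2
    refine h2.congr' ?_
    filter_upwards [eventually_gt_atTop 0] with x hx
    unfold hf
    have e1 : x ^ (-(1 / 4) : ℝ) = x ^ (3 / 4 : ℝ) / x := by
      rw [eq_div_iff hx.ne']
      nth_rewrite 2 [← Real.rpow_one x]
      rw [← Real.rpow_add hx]
      norm_num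
    rw [e1, inv_eq_one_div]
    ring
  refine ⟨?_, h1, hmono, ?_, ?_, ?_, hdiv⟩
  · intro x hx
    have := hmono (Set.mem_Ici.2 le_rfl) (Set.mem_Ici.2 hx) hx
    rwa [h1] at this
  · exact tendsto_atTop_add_const_right _ (-1) hrpow
  · intro x hx y hy hxy
    obtain ⟨t, ht, hts, hht, _, _⟩ := root (Set.mem_Ici.1 hx)
    obtain ⟨u, hu, hus, hhu, _, _⟩ := root (Set.mem_Ici.1 hy)
    have htu : t ≤ u := by
      have : t ^ 12 ≤ u ^ 12 := by rw [hts, hus]; exact hxy
      exact le_of_pow_le_pow_left₀ (by norm_num) (by linarith) this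
    simp only
    rw [hht, hhu, ← hts, ← hus]
    have e : ∀ v : ℝ, v ^ 12 - (v ^ 9 - 1) = v ^ 9 * (v ^ 3 - 1) + 1 := by intro v; ring
    rw [e, e]
    have a1 : t ^ 9 ≤ u ^ 9 := pow_le_pow_left₀ (by linarith) htu 9
    have a2 : t ^ 3 - 1 ≤ u ^ 3 - 1 := by
      have := pow_le_pow_left₀ (by linarith) htu 3
      linarith
    have a3 : 0 ≤ t ^ 3 - 1 := by
      have : 1 ≤ t ^ 3 := one_le_pow₀ ht
      linarith
    have a4 : (0:ℝ) ≤ u ^ 9 := by positivity
    have := mul_le_mul a1 a2 a3 a4
    linarith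
  · have h2 : Tendsto (fun x : ℝ => x * (1 - hf x / x)) atTop atTop := by
      apply Tendsto.atTop_mul_pos (C := 1) one_pos tendsto_id
      have := (tendsto_const_nhds (x := (1:ℝ))).sub hdiv
      rwa [sub_zero] at this
    refine h2.congr' ?_
    filter_upwards [eventually_gt_atTop 0] with x hx
    field_simp

theorem inE_ef : InE hf ef := by
  have hE : Tendsto (fun x : ℝ => x ^ (-(1 / 3) : ℝ)) atTop (𝓝 0) :=
    tendsto_rpow_neg_atTop (by norm_num)
  refine ⟨?_, ?_, ?_⟩
  · intro x hx
    obtain ⟨t, ht, hts, hht, het, _⟩ := root hx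
    have ht0 : 0 < t := by linarith
    rw [het]
    refine ⟨by positivity, ?_⟩
    rw [div_le_div_iff₀ (by positivity) (by norm_num)]
    have : 1 ≤ t ^ 4 := one_le_pow₀ ht
    linarith
  · have := hE.div_const 2
    rwa [zero_div] at this
  · have h1 : Tendsto (fun x : ℝ => x ^ (1 / 12 : ℝ) / 8) atTop atTop :=
      (tendsto_rpow_atTop (by norm_num)).atTop_div_const (by norm_num)
    refine tendsto_atTop_mono' _ ?_ h1
    filter_upwards [eventually_ge_atTop (2 ^ 12 : ℝ)] with x hx
    have hx1 : (1:ℝ) ≤ x := by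
      have : (1:ℝ) ≤ 2 ^ 12 := by norm_num
      linarith
    obtain ⟨t, ht, hts, hht, het, _⟩ := root hx1
    have ht0 : 0 < t := by linarith
    have ht2 : 2 ≤ t := by
      have : (2:ℝ) ^ 12 ≤ t ^ 12 := by rw [hts]; exact hx
      exact le_of_pow_le_pow_left₀ (by norm_num) ht0.le this
    have e1 : x ^ (1 / 12 : ℝ) = t := by
      rw [← hts, ← Real.rpow_natCast, ← Real.rpow_mul ht0.le]
      norm_num
    rw [e1, hht, het]
    have ht9 : 2 ≤ t ^ 9 := by
      calc (2:ℝ) ≤ t := ht2
        _ = t ^ 1 := (pow_one t).symm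
        _ ≤ t ^ 9 := pow_le_pow_right₀ ht (by norm_num)
    have e2 : (t ^ 9 - 1) * (1 / (2 * t ^ 4)) ^ 2 = (t ^ 9 - 1) / (4 * t ^ 8) := by
      field_simp
      ring
    rw [e2, div_le_div_iff₀ (by norm_num) (by positivity)]
    have e3 : t * (4 * t ^ 8) = 4 * t ^ 9 := by ring
    rw [e3]
    linarith

theorem step_support {a : PMF ℕ} {C : ℝ} (hC : 0 < C) {x y : ℕ × ℝ} (hx : 1 ≤ x.2)
    (hy : y ∈ (step a C hf ef x).support) : 1 ≤ y.2 := by
  unfold step at hy
  rw [PMF.mem_support_bind_iff] at hy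
  obtain ⟨I, _, hy⟩ := hy
  rw [PMF.mem_support_bind_iff] at hy
  obtain ⟨J, _, hy⟩ := hy
  rw [PMF.mem_support_map_iff] at hy
  obtain ⟨k, _, hy⟩ := hy
  rw [← hy]
  have hh := inH_hf.1 x.2 hx
  simp only
  split_ifs
  · exact le_max_right _ _
  · linarith
  · linarith

theorem main_drift {a : PMF ℕ} {C : ℝ} (hC : 0 < C) (ha : a 0 ≠ 1) :
    ∃ L : ℝ, 0 < L ∧ ∃ M : ℕ, 2 ≤ M ∧ ∃ V : ℕ × ℝ → ℝ≥0∞, ∃ G : ℕ × ℝ → Prop, ∃ κ : ℝ≥0∞, κ ≠ 0 ∧
      (∀ x, 1 ≤ x.2 → ¬ G x → 1 ≤ V x) ∧
      (∀ x, 1 ≤ x.2 → G x → ex (step a C hf ef x) V + κ * ((x.1 : ℝ≥0∞) ^ 2)⁻¹ ≤ V x) ∧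
      (∀ x : ℕ × ℝ, 1 ≤ x.2 → M < x.1 → V x ≤ ENNReal.ofReal (M * w L x.1 x.2)) := by
  classical
  have ha1 : a 0 ≤ 1 := PMF.coe_le_one a 0
  have hatop : a 0 ≠ ⊤ := PMF.apply_ne_top a 0
  have halt : (a 0).toReal < 1 := by
    have h1 : a 0 < 1 := lt_of_le_of_ne ha1 ha
    rw [← ENNReal.toReal_one]
    exact (ENNReal.toReal_lt_toReal hatop ENNReal.one_ne_top).2 h1
  set r : ℝ := 1 - (a 0).toReal with hr
  have hr0 : 0 < r := by linarith
  have hr1 : r ≤ 1 := by
    have : 0 ≤ (a 0).toReal := ENNReal.toReal_nonneg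
    linarith
  have ea0 : a 0 = ENNReal.ofReal (1 - r) := by
    have h1 : 1 - r = (a 0).toReal := by rw [hr]; ring
    rw [h1, ENNReal.ofReal_toReal hatop]
  have ea1 : 1 - a 0 = ENNReal.ofReal r := by
    rw [hr, ENNReal.ofReal_sub _ ENNReal.toReal_nonneg, ENNReal.ofReal_one,
      ENNReal.ofReal_toReal hatop]
  obtain ⟨L, hL, M, hM, hd⟩ := drift hr0 hr1 hC
  have hMr : (2:ℝ) ≤ M := by exact_mod_cast hM
  set G : ℕ × ℝ → Prop := fun x => M < x.1 ∧ M * w L x.1 x.2 < 1 with hG
  set V : ℕ × ℝ → ℝ≥0∞ := fun x => if G x then ENNReal.ofReal (M * w L x.1 x.2) else 1 with hV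
  have hVle : ∀ y : ℕ × ℝ, 1 ≤ y.1 → V y ≤ ENNReal.ofReal (M * w L y.1 y.2) := by
    intro y hy
    simp only [hV]
    split_ifs with hg
    · exact le_rfl
    · rw [← ENNReal.ofReal_one]
      apply ENNReal.ofReal_le_ofReal
      rw [hG] at hg
      simp only [not_and_or, not_lt] at hg
      rcases hg with hg | hg
      · have hyr : (1:ℝ) ≤ y.1 := by exact_mod_cast hy
        have hyM : (y.1 : ℝ) ≤ M := by exact_mod_cast hg
        have : 1 / (y.1 : ℝ) ≤ w L y.1 y.2 := by
          unfold w
          have : 0 ≤ 256 * √(y.2 + L) / (y.1 : ℝ) ^ 2 := by positivity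
          linarith
        calc (1:ℝ) ≤ M * (1 / (y.1 : ℝ)) := by
              rw [mul_one_div, le_div_iff₀ (by linarith)]
              linarith
          _ ≤ M * w L y.1 y.2 := by gcongr
      · exact hg
  refine ⟨L, hL, M, hM, V, G, ENNReal.ofReal (M * (r / 8)), ?_, ?_, ?_, ?_⟩
  · rw [ne_eq, ENNReal.ofReal_eq_zero, not_le]
    positivity
  · intro x _ hx
    simp only [hV]
    rw [if_neg hx]
  · rintro ⟨N, s⟩ hs hx
    simp only at hs
    have hMN : M < N := hx.1
    have hN1 : 1 ≤ N - 1 := by omega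
    have hNr : (2:ℝ) ≤ N := by
      have : 2 ≤ N := by omega
      exact_mod_cast this
    have hcN : ((N - 1 : ℕ) : ℝ) = N - 1 := by
      rw [Nat.cast_sub (by omega)]; simp
    have hs0 : 0 < s := by linarith
    obtain ⟨t, ht, hts, hht, het, _⟩ := root hs
    have ht0 : 0 < t := by linarith
    have he := inE_ef.1 s hs
    have hh0 := inH_hf.1 s hs
    have hp1 : 1 / s ≤ 1 := by rw [div_le_one hs0]; exact hs
    have hp1' : 0 ≤ 1 / s := by positivity
    have hp0 : 0 ≤ (1 - ef s) / s := by apply div_nonneg <;> linarith [he.2]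
    have hp01 : (1 - ef s) / s ≤ 1 / s := by
      gcongr
      linarith [he.1]
    set q1 := one N (1 / s) with hq1
    set q0 := one N ((1 - ef s) / s) with hq0
    have q1n : 0 ≤ q1 := one_nonneg' hp1' hp1
    have q1l : q1 ≤ 1 := one_le_one hp1' hp1
    have q0n : 0 ≤ q0 := one_nonneg' hp0 (hp01.trans hp1)
    have q0l : q0 ≤ 1 := one_le_one hp0 (hp01.trans hp1)
    have hmax : max (s - hf s) 1 = s - hf s := by
      apply max_eq_left
      rw [hht, ← hts]
      have : t ^ 9 ≤ t ^ 12 := pow_le_pow_right₀ ht (by norm_num)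
      linarith
    have hdr := hd N hMN.le s hs
    -- arrivals after a success
    have hsucc : ∀ s' : ℝ, ex a (fun k => V (N - 1 + k, s')) ≤
        ENNReal.ofReal (M * w L (N - 1) s') := by
      intro s'
      calc ex a (fun k => V (N - 1 + k, s')) ≤
            ex a (fun _ => ENNReal.ofReal (M * w L (N - 1) s') * 1) := by
            apply ex_mono
            intro k
            refine (hVle _ (by simp only; omega)).trans ?_
            rw [mul_one]
            apply ENNReal.ofReal_le_ofReal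
            apply mul_le_mul_of_nonneg_left _ (by positivity)
            apply w_anti (by linarith)
            push_cast
            rw [hcN]
            linarith [(Nat.cast_nonneg k : (0:ℝ) ≤ k)]
        _ = ENNReal.ofReal (M * w L (N - 1) s') := by rw [ex_const_mul, ex_one, mul_one]
    -- arrivals after a failure
    have hfail : ex a (fun k => V (N + k, s + C)) ≤
        ENNReal.ofReal (M * ((1 - r) * w L N (s + C) + r * w L (N + 1) (s + C))) := by
      have wn1 : 0 ≤ w L N (s + C) := w_nonneg (by linarith)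
      have wn2 : 0 ≤ w L (N + 1) (s + C) := w_nonneg (by linarith)
      calc ex a (fun k => V (N + k, s + C)) ≤
            ex a (fun k => ENNReal.ofReal (M * w L ((N + k : ℕ) : ℝ) (s + C))) := by
            apply ex_mono
            intro k
            exact hVle _ (by simp only; omega)
        _ ≤ a 0 * ENNReal.ofReal (M * w L ((N + 0 : ℕ) : ℝ) (s + C)) +
            (1 - a 0) * ENNReal.ofReal (M * w L ((N + 1 : ℕ) : ℝ) (s + C)) := by
            apply ex_arr a (fun k => ENNReal.ofReal (M * w L ((N + k : ℕ) : ℝ) (s + C)))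
            intro k hk
            apply ENNReal.ofReal_le_ofReal
            apply mul_le_mul_of_nonneg_left _ (by positivity)
            apply w_anti
            · push_cast; linarith
            · have : (1:ℝ) ≤ k := by exact_mod_cast hk
              push_cast
              linarith
        _ = ENNReal.ofReal ((1 - r) * (M * w L N (s + C))) +
            ENNReal.ofReal (r * (M * w L (N + 1) (s + C))) := by
            rw [ea1, ea0, ENNReal.ofReal_mul (by linarith : (0:ℝ) ≤ 1 - r),
              ENNReal.ofReal_mul hr0.le]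
            push_cast
            rw [add_zero]
        _ = _ := by
            rw [← ENNReal.ofReal_add]
            · congr 1
              ring
            · have : 0 ≤ 1 - r := by linarith
              positivity
            · positivity
    -- the step
    have hstep : ex (step a C hf ef (N, s)) V ≤
        ENNReal.ofReal (1 / 2 * (q1 * (M * w L (N - 1) (s - hf s)) + (1 - q1) *
          (M * ((1 - r) * w L N (s + C) + r * w L (N + 1) (s + C)))) +
        1 / 2 * (q0 * (M * w L (N - 1) (s + hf s)) + (1 - q0) *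
          (M * ((1 - r) * w L N (s + C) + r * w L (N + 1) (s + C))))) := by
      have wF : 0 ≤ (1 - r) * w L N (s + C) + r * w L (N + 1) (s + C) := by
        have wn1 : 0 ≤ w L N (s + C) := w_nonneg (by linarith)
        have wn2 : 0 ≤ w L (N + 1) (s + C) := w_nonneg (by linarith)
        have : 0 ≤ 1 - r := by linarith
        positivity
      have wG : ∀ s', 0 ≤ w L (N - 1) s' := fun s' => w_nonneg (by linarith)
      have coinb : ∀ (q s' : ℝ), 0 ≤ q → q ≤ 1 →
          ENNReal.ofReal q * ex a (fun k => V (N - 1 + k, s')) +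
            ENNReal.ofReal (1 - q) * ex a (fun k => V (N + k, s + C)) ≤
          ENNReal.ofReal (q * (M * w L (N - 1) s') + (1 - q) *
            (M * ((1 - r) * w L N (s + C) + r * w L (N + 1) (s + C)))) := by
        intro q s' h0 h1
        have hq' : 0 ≤ 1 - q := by linarith
        have hw' := wG s'
        rw [ENNReal.ofReal_add (by positivity) (by positivity), ENNReal.ofReal_mul h0,
          ENNReal.ofReal_mul hq']
        exact add_le_add (mul_le_mul_right (hsucc s') _) (mul_le_mul_right hfail _)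
      unfold step
      rw [ex_bind, ex_coin (by norm_num) (by norm_num), ex_bind, ex_bind]
      simp only [if_true, Bool.false_eq_true, if_false]
      rw [ex_coin q1n q1l, ex_coin q0n q0l]
      simp only [ex_map]
      simp only [if_true, Bool.false_eq_true, if_false, Nat.sub_zero, hmax]
      have c1 := coinb q1 (s - hf s) q1n q1l
      have c0 := coinb q0 (s + hf s) q0n q0l
      have hw1 := wG (s - hf s)
      have hw0 := wG (s + hf s)
      have hq1' : 0 ≤ 1 - q1 := by linarith
      have hq0' : 0 ≤ 1 - q0 := by linarith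
      rw [ENNReal.ofReal_add (by positivity) (by positivity), ENNReal.ofReal_mul (by norm_num),
        ENNReal.ofReal_mul (p := 1 / 2) (by norm_num)]
      have h12 : (1:ℝ) - 1 / 2 = 1 / 2 := by norm_num
      rw [h12]
      exact add_le_add (mul_le_mul_right c1 _) (mul_le_mul_right c0 _)
    have hVx : V (N, s) = ENNReal.ofReal (M * w L N s) := by
      simp only [hV]
      rw [if_pos hx]
    rw [hVx]
    have hκ : ENNReal.ofReal (M * (r / 8)) * (((N : ℕ) : ℝ≥0∞) ^ 2)⁻¹ =
        ENNReal.ofReal (M * (r / 8) / (N : ℝ) ^ 2) := by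
      rw [ENNReal.ofReal_div_of_pos (by positivity), ENNReal.ofReal_pow (by positivity),
        ENNReal.ofReal_natCast, ENNReal.div_eq_inv_mul, mul_comm]
    simp only
    rw [hκ]
    refine (add_le_add_left hstep _).trans ?_
    rw [← ENNReal.ofReal_add]
    · apply ENNReal.ofReal_le_ofReal
      have hMpos : (0:ℝ) ≤ M := by positivity
      have := mul_le_mul_of_nonneg_left hdr hMpos
      refine le_trans (le_of_eq ?_) this
      ring
    · have wF : 0 ≤ (1 - r) * w L N (s + C) + r * w L (N + 1) (s + C) := by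
        have wn1 : 0 ≤ w L N (s + C) := w_nonneg (by linarith)
        have wn2 : 0 ≤ w L (N + 1) (s + C) := w_nonneg (by linarith)
        have : 0 ≤ 1 - r := by linarith
        positivity
      have wG : ∀ s', 0 ≤ w L (N - 1) s' := fun s' => w_nonneg (by linarith)
      have hw1 := wG (s - hf s)
      have hw0 := wG (s + hf s)
      have hq1' : 0 ≤ 1 - q1 := by linarith
      have hq0' : 0 ≤ 1 - q0 := by linarith
      positivity
    · positivity
  · intro x _ hx
    exact hVle x (by omega)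

end Pool.Agent.R946.Aloha
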