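import Pool.Agent.R946.Aloha.C

/-!
Instability of the protocol and failure of Harris ergodicity.
-/

namespace Pool.Agent.R946.Aloha

open MeasureTheory Filter Topology ENNReal

theorem probLe_eventually {a : PMF ℕ} {C : ℝ} (hC : 0 < C) (ha : a 0 ≠ 1) {η : ℝ} (hη : 0 < η) :
    ∃ x : ℕ × ℝ, 1 ≤ x.2 ∧ ∀ m : ℕ, ∀ᶠ n in atTop, probLe a C hf ef x m n ≤ η := by
  obtain ⟨L, hL, M, hM, V, G, κ, hκ, h1, h2, h3⟩ := main_drift hC ha
  have hMr : (2:ℝ) ≤ M := by exact_mod_cast hM
  -- choice of the number of messages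
  set A : ℝ := M * (1 + 256 * √(1 + L)) with hA
  have hApos : 0 < A := by positivity
  obtain ⟨N, hN⟩ := exists_nat_gt (2 * A / η + M)
  have hNpos : (0:ℝ) < N := by
    have : 0 < 2 * A / η := by positivity
    linarith
  have hN1 : (1:ℝ) ≤ N := by
    have : 0 < 2 * A / η := by positivity
    linarith
  have hMN : M < N := by
    have : 0 < 2 * A / η := by positivity
    have : (M : ℝ) < N := by linarith
    exact_mod_cast this
  have hw : M * w L N 1 ≤ η / 2 := by
    have e1 : w L N 1 ≤ (1 + 256 * √(1 + L)) / N := by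
      unfold w
      have : 256 * √(1 + L) / (N : ℝ) ^ 2 ≤ 256 * √(1 + L) / N := by
        apply div_le_div_of_nonneg_left (by positivity) hNpos
        nlinarith
      rw [add_div]
      linarith
    calc M * w L N 1 ≤ M * ((1 + 256 * √(1 + L)) / N) := by gcongr
      _ = A / N := by rw [hA]; ring
      _ ≤ η / 2 := by
        rw [div_le_div_iff₀ hNpos (by norm_num)]
        have : 2 * A / η < N := by linarith
        rw [div_lt_iff₀ hη] at this
        linarith
  refine ⟨(N, 1), le_rfl, ?_⟩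
  intro m
  have hVx : V (N, 1) ≤ ENNReal.ofReal (η / 2) :=
    (h3 (N, 1) le_rfl hMN).trans (ENNReal.ofReal_le_ofReal hw)
  have hVtop : V (N, 1) ≠ ⊤ := ne_top_of_le_ne_top ENNReal.ofReal_ne_top hVx
  obtain ⟨u, hu, hb⟩ := criterion a C hf ef V G κ hκ (fun x y hx hy => step_support hC hx hy)
    h1 h2 (N, 1) le_rfl hVtop m
  have hpos : (0 : ℝ≥0∞) < ENNReal.ofReal (η / 2) := by
    rw [ENNReal.ofReal_pos]
    positivity
  filter_upwards [hu.eventually (gt_mem_nhds hpos)] with n hn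
  unfold probLe
  apply ENNReal.toReal_le_of_le_ofReal hη.le
  calc (law a C hf ef (N, 1) n).toMeasure {y | y.1 ≤ m} ≤ V (N, 1) + u n := hb n
    _ ≤ ENNReal.ofReal (η / 2) + ENNReal.ofReal (η / 2) := add_le_add hVx hn.le
    _ = ENNReal.ofReal η := by
      rw [← ENNReal.ofReal_add (by positivity) (by positivity)]
      congr 1
      ring

theorem not_harris {a : PMF ℕ} {C : ℝ} (hC : 0 < C) (ha : a 0 ≠ 1) :
    ¬ HarrisErgodic a C hf ef := by
  rintro ⟨μ, hμ, h⟩
  obtain ⟨x, hx, hm⟩ := probLe_eventually hC ha (η := 1 / 4) (by norm_num)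
  have key : ∀ m : ℕ, μ {y : ℕ × ℝ | y.1 ≤ m} ≤ ENNReal.ofReal (1 / 2) := by
    intro m
    have hmeas : MeasurableSet {y : ℕ × ℝ | y.1 ≤ m} :=
      measurableSet_le measurable_fst measurable_const
    obtain ⟨n₀, hn₀⟩ := h x hx (1 / 4) (by norm_num)
    obtain ⟨n, hn1, hn2⟩ := ((hm m).and (eventually_ge_atTop n₀)).exists
    have h1 := hn₀ n hn2 _ hmeas
    unfold probLe at hn1
    rw [abs_le] at h1
    have h2 : (μ {y : ℕ × ℝ | y.1 ≤ m}).toReal ≤ 1 / 2 := by linarith [h1.1]
    rw [← ENNReal.ofReal_toReal (measure_ne_top μ {y : ℕ × ℝ | y.1 ≤ m})]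
    exact ENNReal.ofReal_le_ofReal h2
  have hmono : Monotone (fun m : ℕ => {y : ℕ × ℝ | y.1 ≤ m}) := by
    intro i j hij y hy
    exact le_trans hy hij
  have hU : (⋃ m : ℕ, {y : ℕ × ℝ | y.1 ≤ m}) = Set.univ := by
    ext y
    refine ⟨fun _ => trivial, fun _ => Set.mem_iUnion.2 ⟨y.1, ?_⟩⟩
    exact (le_rfl : y.1 ≤ y.1)
  have hlim := tendsto_measure_iUnion_atTop (μ := μ) hmono
  rw [hU, measure_univ] at hlim
  have := le_of_tendsto' hlim key
  rw [← ENNReal.ofReal_one] at this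
  rw [ENNReal.ofReal_le_ofReal_iff (by norm_num)] at this
  norm_num at this

theorem mean_pos_ne {a : PMF ℕ} {lam : ℝ} (hl : 0 < lam)
    (hs : HasSum (fun k : ℕ => (k : ℝ) * (a k).toReal) lam) : a 0 ≠ 1 := by
  intro h0
  have hz : ∀ k : ℕ, k ≠ 0 → a k = 0 := by
    intro k hk
    by_contra hne
    have hk' : k ∈ a.support := (PMF.mem_support_iff a k).2 hne
    rw [PMF.apply_eq_one_iff] at h0
    rw [h0] at hk'
    exact hk hk'
  have : HasSum (fun k : ℕ => (k : ℝ) * (a k).toReal) 0 := by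
    convert hasSum_zero using 2 with k
    by_cases hk : k = 0
    · simp [hk]
    · simp [hz k hk]
  have := hs.unique this
  linarith

/-- arrivals `0` or `1` -/
theorem exists_mean {lam : ℝ} (h0 : 0 < lam) (h1 : lam < 1) :
    ∃ a : PMF ℕ, HasSum (fun k : ℕ => (k : ℝ) * (a k).toReal) lam := by
  refine ⟨(coin lam).map (fun b => if b then 1 else 0), ?_⟩
  have h2 : ((coin lam).map (fun b => if b then (1:ℕ) else 0)) 1 = ENNReal.ofReal lam := by
    rw [PMF.map_apply, tsum_fintype, Fintype.sum_bool]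
    unfold coin
    simp only [PMF.ofFintype_apply, if_true, Bool.false_eq_true, if_false]
    rw [min_eq_left h1.le, max_eq_right h0.le]
    simp
  have h3 : ∀ k : ℕ, k ≠ 0 → k ≠ 1 →
      ((coin lam).map (fun b => if b then (1:ℕ) else 0)) k = 0 := by
    intro k hk0 hk1
    rw [PMF.map_apply, tsum_fintype, Fintype.sum_bool]
    simp [hk0, hk1]
  have := hasSum_single (f := fun k : ℕ => (k : ℝ) *
    (((coin lam).map (fun b => if b then (1:ℕ) else 0)) k).toReal) 1 (by
      intro k hk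
      by_cases hk0 : k = 0
      · simp [hk0]
      · simp [h3 k hk0 hk])
  simp only [h2, Nat.cast_one, one_mul] at this
  rwa [ENNReal.toReal_ofReal h0.le] at this

end Pool.Agent.R946.Aloha
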