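import Mathlib

/-!
Definitions for the protocol `A₃(C, h, 1 - ε)` (doubly randomised ALOHA).
-/

namespace Pool.Agent.R946.Aloha

open MeasureTheory Filter Topology

/-- The probability that exactly one of `N` messages is sent when each of them is sent
independently with probability `p`. -/
noncomputable def one (N : ℕ) (p : ℝ) : ℝ := N * p * (1 - p) ^ (N - 1)

/-- A coin: `true` with probability `r` (it is used for `0 ≤ r ≤ 1`; other values of `r` are
clipped to this interval). -/
noncomputable def coin (r : ℝ) : PMF Bool :=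
  PMF.ofFintype
    (fun b => ENNReal.ofReal (if b then max 0 (min r 1) else 1 - max 0 (min r 1))) (by
      have h0 : (0 : ℝ) ≤ max 0 (min r 1) := le_max_left _ _
      have h1 : max 0 (min r 1) ≤ (1 : ℝ) := max_le zero_le_one (min_le_right _ _)
      rw [Fintype.sum_bool]
      simp only [if_true, Bool.false_eq_true, if_false]
      rw [← ENNReal.ofReal_add h0 (by linarith)]
      simp)

/-- One step of the Markov chain `(N, S)` of the protocol `A₃(C, h, 1 - ε)`; `a` is the law of the
number of arrivals in one slot. The first coin is `I` (`true` for `I = 1`), the second coin is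
`J` (`true` if exactly one message is sent). -/
noncomputable def step (a : PMF ℕ) (C : ℝ) (h ε : ℝ → ℝ) (x : ℕ × ℝ) : PMF (ℕ × ℝ) :=
  (coin (1 / 2)).bind fun I =>
    (coin (one x.1 (if I then 1 / x.2 else (1 - ε x.2) / x.2))).bind fun J =>
      a.map fun k =>
        (x.1 - (if J then 1 else 0) + k,
          if J then (if I then max (x.2 - h x.2) 1 else x.2 + h x.2) else x.2 + C)

/-- The law of the chain after `n` steps from the initial state `x`. -/
noncomputable def law (a : PMF ℕ) (C : ℝ) (h ε : ℝ → ℝ) (x : ℕ × ℝ) : ℕ → PMF (ℕ × ℝ)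
  | 0 => PMF.pure x
  | n + 1 => (law a C h ε x n).bind (step a C h ε)

/-- The class `𝓗` of functions `h`. -/
def InH (h : ℝ → ℝ) : Prop :=
  (∀ x, 1 ≤ x → 0 ≤ h x) ∧ h 1 = 0 ∧ MonotoneOn h (Set.Ici 1) ∧ Tendsto h atTop atTop ∧
    MonotoneOn (fun x => x - h x) (Set.Ici 1) ∧ Tendsto (fun x => x - h x) atTop atTop ∧
    Tendsto (fun x => h x / x) atTop (𝓝 0)

/-- The class `𝓔_h` of functions `ε`. -/
def InE (h ε : ℝ → ℝ) : Prop :=
  (∀ x, 1 ≤ x → 0 < ε x ∧ ε x ≤ 1 / 2) ∧ Tendsto ε atTop (𝓝 0) ∧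
    Tendsto (fun x => h x * ε x ^ 2) atTop atTop

/-- Harris ergodicity: convergence in total variation to one probability measure from every
initial value. -/
def HarrisErgodic (a : PMF ℕ) (C : ℝ) (h ε : ℝ → ℝ) : Prop :=
  ∃ μ : Measure (ℕ × ℝ), IsProbabilityMeasure μ ∧ ∀ x : ℕ × ℝ, 1 ≤ x.2 →
    ∀ δ : ℝ, 0 < δ → ∃ n₀ : ℕ, ∀ n, n₀ ≤ n → ∀ A : Set (ℕ × ℝ), MeasurableSet A →
      |((law a C h ε x n).toMeasure A).toReal - (μ A).toReal| ≤ δ

/-- The probability that at most `m` messages are present after `n` steps. -/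
noncomputable def probLe (a : PMF ℕ) (C : ℝ) (h ε : ℝ → ℝ) (x : ℕ × ℝ) (m n : ℕ) : ℝ :=
  ((law a C h ε x n).toMeasure {y | y.1 ≤ m}).toReal

end Pool.Agent.R946.Aloha
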